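import Pool.Agent.Helper70.GUM.St2

/-!
# Project GUM for MP_0bd1d1_al, module SND: the sandwich
-/

set_option autoImplicit false

namespace Pool.Agent.Helper6.GUM

open Pool.Agent.Helper70.GUM
open Module OG UN
open scoped Classical

universe u v w z y o

section

variable {k F R K : Type*} [Field k] [Field F] [Algebra k F] [Fintype F] {σ : F ≃ₐ[k] F} {hσ : QE σ}
  [CommRing R] [Field K] [Algebra R K]

/-- `XR` commutes with the multiplication by constants of `K`. -/
theorem XR_const (r : R) (ε : F) (κ : K) (f : Hei hσ → K) :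
    XR r ε (fun g => κ * f g) = fun g => κ * XR r ε f g := by
  funext g
  simp only [XR_apply]
  rw [← Finset.mul_sum, mul_neg, Algebra.mul_smul_comm]

/-- powers of `XR` preserve `Fun` and `VS J` -/
theorem pow_mem (V : Submodule R (Hei hσ → K)) (r : R) (ε : F) (h : ∀ f ∈ V, XR r ε f ∈ V) (n : ℕ) :
    ∀ f ∈ V, (XR r ε ^ n) f ∈ V := by
  induction n with
  | zero => intro f hf; simpa using hf
  | succ n ih =>
    intro f hf
    rw [pow_succ, Module.End.mul_apply]
    exact ih _ (h f hf)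

theorem tr_ne (hσ : QE σ) {ε : F} (hε : ε + σ ε = 1) (d : k) (hd : d ≠ 0) :
    ε * algebraMap k F d + σ (ε * algebraMap k F d) ≠ 0 ∧
    σ ε * algebraMap k F d + σ (σ ε * algebraMap k F d) ≠ 0 := by
  have h0 : algebraMap k F d ≠ 0 := by
    intro h
    exact hd ((map_eq_zero (algebraMap k F)).1 h)
  have e1 : ε * algebraMap k F d + σ (ε * algebraMap k F d) = algebraMap k F d := by
    rw [map_mul, AlgEquiv.commutes]
    linear_combination (algebraMap k F d) * hε
  have e2 : σ ε * algebraMap k F d + σ (σ ε * algebraMap k F d) = algebraMap k F d := by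
    rw [map_mul, AlgEquiv.commutes, hσ.inv ε]
    linear_combination (algebraMap k F d) * hε
  rw [e1, e2]
  exact ⟨h0, h0⟩

end

theorem hSND (hXB : StXB.{u, v, w, z}) (hBL1 : StBL1.{u, v, w, z, y, o}) (hBL2 : StBL2.{u, v, w, z, y, o}) :
    StSND.{u, v, w, z, y, o} := by
  intro k F R K E Ω _ _ _ _ _ σ _ _ _ _ hσ _ _ H S G χ r x C SM B P A N hN
  obtain ⟨hX1, hX2⟩ := hXB (K := K) hσ C SM B P
  have hε1 : ep x 1 + σ (ep x 1) = 1 := SM.tr1 1 le_rfl (le_trans one_le_two SM.two)
  have hε2 : ep x 2 + σ (ep x 2) = 1 := SM.tr1 2 one_le_two SM.two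
  set X := XR (hσ := hσ) (K := K) r (ep x 1) with hX
  set q := Nat.card k with hq
  have hone : ∀ f ∈ Fun R K hσ χ, (X ^ q) (X f) = f := by
    intro f hf
    have := P.one f hf
    rwa [pow_succ, Module.End.mul_apply] at this
  have hone' : ∀ f ∈ Fun R K hσ χ, X ((X ^ q) f) = f := by
    intro f hf
    have := P.one f hf
    rwa [pow_succ', Module.End.mul_apply] at this
  constructor
  · -- (1)
    intro f hf
    have hfF : f ∈ Fun R K hσ χ := hf.1
    have hfV : f ∈ VS hσ (Jn G χ N) := hf.2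
    set f' := (X ^ q) f with hf'
    have hf'F : f' ∈ Fun R K hσ χ := pow_mem _ _ _ (fun f hf => B.xrF _ f hf) q f hfF
    have hf'V : f' ∈ VS hσ (Jn G χ N) := pow_mem _ _ _ (fun f hf => B.xrV _ _ f hf) q f hfV
    have e1 : X f - f = X (X f') - X f' := by
      rw [hf', hone' f hfF]
    have e2 : f' = ∑ a : F, (fun g => f' (sc hσ (ep x 1) a) * Lt R (sc hσ (ep x 1) a) (DD K hσ χ) g) := by
      funext g
      rw [Finset.sum_apply, B.exp f' hf'F (ep x 1) hε1 g]
      rfl
    have e3 : X (X f') - X f' = ∑ a : F, (fun g => f' (sc hσ (ep x 1) a) *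
        (X (X (Lt R (sc hσ (ep x 1) a) (DD K hσ χ))) - X (Lt R (sc hσ (ep x 1) a) (DD K hσ χ))) g) := by
      conv_lhs => rw [e2]
      rw [map_sum, map_sum, ← Finset.sum_sub_distrib]
      refine Finset.sum_congr rfl fun a _ => ?_
      rw [hX, XR_const, XR_const]
      funext g
      simp only [Pi.sub_apply]
      ring
    rw [e1, e3]
    refine Submodule.sum_mem _ fun a _ => ?_
    set κ := f' (sc hσ (ep x 1) a) with hκ
    have hκJ : κ ∈ Jn G χ N := hf'V _
    set s := sc hσ (ep x 1) a with hs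
    have e4 : (fun g => κ * (X (X (Lt R s (DD K hσ χ))) - X (Lt R s (DD K hσ χ))) g) =
        -(r • ∑ d ∈ Finset.univ.filter (fun d : k => d ≠ 0),
          ((fun g => κ * ∑ b ∈ Finset.univ.filter (fun b : F => σ (ep x 2) * algebraMap k F d +
              σ (σ (ep x 2) * algebraMap k F d) = b * σ b),
              DD K hσ χ ((s * pt hσ b (σ (ep x 2) * algebraMap k F d))⁻¹ * g)) -
            (fun g => κ * ∑ b ∈ Finset.univ.filter (fun b : F => σ (ep x 1) * algebraMap k F d +
              σ (σ (ep x 1) * algebraMap k F d) = b * σ b),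
              DD K hσ χ ((s * pt hσ b (σ (ep x 1) * algebraMap k F d))⁻¹ * g)))) := by
      funext g
      rw [hX2 s g]
      simp only [Pi.neg_apply, Pi.smul_apply, Finset.sum_apply, Pi.sub_apply]
      rw [mul_neg, Algebra.mul_smul_comm, Finset.mul_sum]
      congr 2
      refine Finset.sum_congr rfl fun d _ => ?_
      rw [mul_sub]
    rw [e4]
    refine Submodule.neg_mem _ (Submodule.smul_mem _ _ (Submodule.sum_mem _ fun d hd => ?_))
    have hd0 : d ≠ 0 := (Finset.mem_filter.1 hd).2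
    exact Submodule.sub_mem _ (hBL2 G C SM B A N hN κ hκJ s _ (tr_ne hσ hε2 d hd0).2)
      (hBL2 G C SM B A N hN κ hκJ s _ (tr_ne hσ hε1 d hd0).2)
  · -- (2)
    intro f hf
    have hfF : f ∈ Fun R K hσ χ := (mem_Qn.1 hf).1
    have hXf : X f ∈ Fun R K hσ χ := B.xrF _ f hfF
    have h1 : X (X f) - X f ∈ VS hσ (Jn G χ N) := by
      intro g
      rw [hX1 f hfF g]
      refine Submodule.neg_mem _ (Submodule.smul_mem _ _ (Submodule.sum_mem _ fun d hd => ?_))
      have hd0 : d ≠ 0 := (Finset.mem_filter.1 hd).2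
      exact Submodule.sub_mem _ (hBL1 G C SM A N hN f hf g _ (tr_ne hσ hε2 d hd0).1)
        (hBL1 G C SM A N hN f hf g _ (tr_ne hσ hε1 d hd0).1)
    have h2 : X f - f = (X ^ q) (X (X f) - X f) := by
      rw [map_sub, hone _ hXf, hone _ hfF]
    rw [h2]
    exact pow_mem _ _ _ (fun f hf => B.xrV _ _ f hf) q _ h1

end Pool.Agent.Helper6.GUM
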